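import Pool.Agent.H71.HV.Targets2

/-!
HV module R4: labels are respected by forced relations.
-/

set_option autoImplicit false

open Set Topology TopologicalSpace Filter

namespace Pool.Agent.H48.HV

open Pool.Agent.H71.HV

universe u v

variable {G : Type u} {Y : Type v} [Group G] [MetricSpace G] [TopologicalSpace Y] [MulAction G Y]

/-! ### the rank -/

section Rank

variable {κ : Type} [LinearOrder κ] [WellFoundedLT κ]

/-- rank relative to a set -/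
noncomputable def rk (H : Set κ) : κ → Ordinal.{0} :=
  WellFounded.fix (wellFounded_lt (α := κ))
    (fun ξ IH => ⨆ η : {η : κ // η ∈ H ∧ η < ξ}, Order.succ (IH η.1 η.2.2))

lemma rk_eq (H : Set κ) (ξ : κ) :
    rk H ξ = ⨆ η : {η : κ // η ∈ H ∧ η < ξ}, Order.succ (rk H η.1) := by
  unfold rk
  rw [WellFounded.fix_eq]

lemma rk_lt (H : Set κ) {η ξ : κ} (hη : η ∈ H) (h : η < ξ) : rk H η + 1 ≤ rk H ξ := by
  rw [rk_eq H ξ, ← Order.succ_eq_add_one]
  exact Ordinal.le_iSup (fun η : {η : κ // η ∈ H ∧ η < ξ} => Order.succ (rk H η.1)) ⟨η, hη, h⟩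

lemma rk_le (H : Set κ) {η ξ : κ} (hη : η ∈ H) (h : η ≤ ξ) : rk H η ≤ rk H ξ := by
  rcases h.eq_or_lt with rfl | h
  · exact le_rfl
  · exact (le_add_of_nonneg_right zero_le_one).trans (rk_lt H hη h)

lemma lt_rk (H : Set κ) {ξ : κ} {β : Ordinal.{0}} (h : β < rk H ξ) :
    ∃ η ∈ H, η < ξ ∧ β ≤ rk H η := by
  rw [rk_eq, Ordinal.lt_iSup_iff] at h
  obtain ⟨⟨η, h1, h2⟩, h3⟩ := h
  exact ⟨η, h1, h2, Order.lt_succ_iff.1 h3⟩

end Rank

variable {C : Ctx G Y} {κ : Type} [LinearOrder κ] {P : Type} [Preorder P]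

/-! ### tasks -/

/-- the tasks for the first component -/
abbrev Tk := (ℕ × ℕ) ⊕ (ℕ × ℕ × ℕ × ℕ × ℕ) ⊕ (ℕ × ℕ) ⊕ (ℕ × ℕ)

/-- the task `i` is done in the step from `x` to `y` -/
def Done (L : LP C κ P) (i : Tk) (x y : P × P) : Prop := match i with
  | .inl t => ∃ l, L.lab y.1 t.1 t.2 = some l
  | .inr (.inl t) => ∀ l (η : κ), L.lab x.1 t.1 t.2.1 = some l → lb η < l →
      C.B t.2.2.1 ⊆ C.B t.1 →
      (L.lab x.1 t.2.2.2.1 t.2.2.2.2 = some (lb η) ∨ L.lab x.2 t.2.2.2.1 t.2.2.2.2 = some (lb η)) →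
      ∃ W', C.B W' ⊆ C.B t.2.1 ∧ ∃ m, L.lab y.1 W' t.2.2.1 = some m ∧ lb η ≤ m
  | .inr (.inr (.inl t)) => ∀ ξ : κ, L.lab x.1 t.1 t.2 = some (lb ξ) →
      ∃ V', C.B V' ⊆ C.B t.1 ∧ ∀ r ≤ y.1, ∀ W', C.B W' ⊆ C.B t.2 →
        ∀ m, L.lab r W' V' = some m → m < lb ξ
  | .inr (.inr (.inr t)) => L.lab x.1 t.1 t.2 = some ⊥ →
      ∃ k, C.Forces (L.stem y.1) t.1 k ∧ C.Neg L.toStem y.1 t.2 k

lemma lb_inj {η η' : κ} (h : (lb η : Lab κ) = lb η') : η = η' := by
  unfold lb at h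
  exact WithTop.coe_injective (WithBot.coe_injective h)

lemma exists_done (L : LP C κ P) (i : Tk) (x : P × P) : ∃ y ≤ x, Done L i x y := by
  classical
  obtain ⟨V, W⟩ | ⟨V, W, V', A, B⟩ | ⟨V, W⟩ | ⟨V, W⟩ := i
  · obtain ⟨q, hq, l, hl⟩ := L.dec x.1 V W
    exact ⟨(q, x.2), ⟨hq, le_rfl⟩, l, hl⟩
  · have main : ∀ η : κ, ∃ y ≤ x, ∀ l, L.lab x.1 V W = some l → lb η < l →
        C.B V' ⊆ C.B V → ∃ W', C.B W' ⊆ C.B W ∧ ∃ m, L.lab y.1 W' V' = some m ∧ lb η ≤ m := by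
      intro η
      by_cases h : ∃ l, L.lab x.1 V W = some l ∧ lb η < l ∧ C.B V' ⊆ C.B V
      · obtain ⟨l, h1, h2, h3⟩ := h
        obtain ⟨q, hq, W', hW', m, hm, hm'⟩ := L.up x.1 V W l η h1 h2 V' h3
        exact ⟨(q, x.2), ⟨hq, le_rfl⟩, fun _ _ _ _ => ⟨W', hW', m, hm, hm'⟩⟩
      · exact ⟨x, le_rfl, fun l h1 h2 h3 => absurd ⟨l, h1, h2, h3⟩ h⟩
    by_cases h1 : ∃ η : κ, L.lab x.1 A B = some (lb η)
    · obtain ⟨η, hη⟩ := h1
      obtain ⟨y, hy, hy'⟩ := main η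
      by_cases h2 : ∃ η : κ, L.lab x.2 A B = some (lb η)
      · obtain ⟨η2, hη2⟩ := h2
        -- perform the second task after the first one
        by_cases h3 : ∃ l, L.lab x.1 V W = some l ∧ lb η2 < l ∧ C.B V' ⊆ C.B V
        · obtain ⟨l, h4, h5, h6⟩ := h3
          obtain ⟨q, hq, W', hW', m, hm, hm'⟩ := L.up y.1 V W l η2 (L.lab_mono hy.1 _ _ _ h4) h5
            V' h6
          refine ⟨(q, y.2), ⟨hq.trans hy.1, hy.2⟩, fun l' η' g1 g2 g3 g4 => ?_⟩
          rcases g4 with g4 | g4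
          · obtain rfl : η = η' := lb_inj (Option.some.inj (hη.symm.trans g4))
            obtain ⟨W'', k1, m', k2, k3⟩ := hy' l' g1 g2 g3
            exact ⟨W'', k1, m', L.lab_mono hq _ _ _ k2, k3⟩
          · obtain rfl : η2 = η' := lb_inj (Option.some.inj (hη2.symm.trans g4))
            exact ⟨W', hW', m, hm, hm'⟩
        · refine ⟨y, hy, fun l' η' g1 g2 g3 g4 => ?_⟩
          rcases g4 with g4 | g4
          · obtain rfl : η = η' := lb_inj (Option.some.inj (hη.symm.trans g4))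
            exact hy' l' g1 g2 g3
          · obtain rfl : η2 = η' := lb_inj (Option.some.inj (hη2.symm.trans g4))
            exact absurd ⟨l', g1, g2, g3⟩ h3
      · refine ⟨y, hy, fun l' η' g1 g2 g3 g4 => ?_⟩
        rcases g4 with g4 | g4
        · obtain rfl : η = η' := lb_inj (Option.some.inj (hη.symm.trans g4))
          exact hy' l' g1 g2 g3
        · exact absurd ⟨_, g4⟩ h2
    · by_cases h2 : ∃ η : κ, L.lab x.2 A B = some (lb η)
      · obtain ⟨η, hη⟩ := h2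
        obtain ⟨y, hy, hy'⟩ := main η
        refine ⟨y, hy, fun l' η' g1 g2 g3 g4 => ?_⟩
        rcases g4 with g4 | g4
        · exact absurd ⟨_, g4⟩ h1
        · obtain rfl : η = η' := lb_inj (Option.some.inj (hη.symm.trans g4))
          exact hy' l' g1 g2 g3
      · refine ⟨x, le_rfl, fun l' η' g1 g2 g3 g4 => ?_⟩
        rcases g4 with g4 | g4
        · exact absurd ⟨_, g4⟩ h1
        · exact absurd ⟨_, g4⟩ h2
  · by_cases h : ∃ ξ : κ, L.lab x.1 V W = some (lb ξ)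
    · obtain ⟨ξ, hξ⟩ := h
      obtain ⟨q, hq, V', hV', hr⟩ := L.down x.1 V W ξ hξ
      refine ⟨(q, x.2), ⟨hq, le_rfl⟩, fun ξ' hξ' => ?_⟩
      obtain rfl : ξ = ξ' := lb_inj (Option.some.inj (hξ.symm.trans hξ'))
      exact ⟨V', hV', hr⟩
    · exact ⟨x, le_rfl, fun ξ' hξ' => absurd ⟨ξ', hξ'⟩ h⟩
  · by_cases h : L.lab x.1 V W = some ⊥
    · obtain ⟨q, hq, k, hk⟩ := L.bot x.1 V W h
      exact ⟨(q, x.2), ⟨hq, le_rfl⟩, fun _ => ⟨k, hk⟩⟩
    · exact ⟨x, le_rfl, fun h' => absurd h' h⟩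

/-- generic sequences for the labels -/
structure Gd (L : LP C κ P) (p q : ℕ → P) : Prop where
  anti : Antitone p
  anti' : Antitone q
  done : ∀ (i : Tk) (m : ℕ), ∃ k ≥ m, Done L i (p k, q k) (p (k + 1), q (k + 1))

/-- existence of generic pairs -/
lemma exists_gd [ContinuousConstSMul G Y] (L : LP C κ P) (a b : P) :
    ∃ p q : ℕ → P, ∃ z1 z2, p 0 = a ∧ q 0 = b ∧ Ctx.GPair C L.toStem p q z1 z2 ∧ Gd L p q ∧
      Gd L q p := by
  classical
  choose T hT hT' using exists_done L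
  obtain ⟨p, q, z1, z2, h0, h0', hG, h⟩ := Ctx.exists_gpair C L.toStem a b (I := Tk ⊕ Tk)
    (fun i x => match i with
      | .inl i => T i x
      | .inr i => (T i x.swap).swap) (by
        rintro (i | i) x
        · exact hT i x
        · exact ⟨(hT i x.swap).2, (hT i x.swap).1⟩)
  refine ⟨p, q, z1, z2, h0, h0', hG, ⟨hG.anti1, hG.anti2, fun i m => ?_⟩,
    ⟨hG.anti2, hG.anti1, fun i m => ?_⟩⟩
  · obtain ⟨k, hk, hk'⟩ := h (.inl i) m
    refine ⟨k, hk, ?_⟩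
    rw [hk']
    exact hT' i _
  · obtain ⟨k, hk, hk'⟩ := h (.inr i) m
    refine ⟨k, hk, ?_⟩
    have h1 : (q (k + 1), p (k + 1)) = T i (q k, p k) := by
      have := congrArg Prod.swap hk'
      simpa using this
    rw [h1]
    exact hT' i _

/-- the label of a sequence -/
def Lb (L : LP C κ P) (p : ℕ → P) (V W : ℕ) (l : Lab κ) : Prop := ∃ n, L.lab (p n) V W = some l

lemma Lb.uniq {L : LP C κ P} {p : ℕ → P} (hp : Antitone p) {V W : ℕ} {l l' : Lab κ}
    (h : Lb L p V W l) (h' : Lb L p V W l') : l = l' := by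
  obtain ⟨n, hn⟩ := h
  obtain ⟨n', hn'⟩ := h'
  have h1 := L.lab_mono (hp (le_max_left n n')) _ _ _ hn
  have h2 := L.lab_mono (hp (le_max_right n n')) _ _ _ hn'
  exact Option.some.inj (h1.symm.trans h2)

lemma Lb.at {L : LP C κ P} {p : ℕ → P} (hp : Antitone p) {V W : ℕ} {l : Lab κ}
    (h : Lb L p V W l) : ∃ n, ∀ m ≥ n, L.lab (p m) V W = some l := by
  obtain ⟨n, hn⟩ := h
  exact ⟨n, fun m hm => L.lab_mono (hp hm) _ _ _ hn⟩

/-- the labels occurring -/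
def Occ (L : LP C κ P) (p q : ℕ → P) : Set κ :=
  {η | ∃ V W, Lb L p V W (lb η) ∨ Lb L q V W (lb η)}

lemma Occ_comm (L : LP C κ P) (p q : ℕ → P) : Occ L p q = Occ L q p := by
  ext η
  simp only [Occ, mem_setOf_eq]
  exact exists_congr fun V => exists_congr fun W => Or.comm

namespace Gd

variable {L : LP C κ P} {p q : ℕ → P}

lemma dec (h : Gd L p q) (V W : ℕ) : ∃ l, Lb L p V W l := by
  obtain ⟨k, -, l, hl⟩ := h.done (.inl (V, W)) 0
  exact ⟨l, k + 1, hl⟩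

lemma up (h : Gd L p q) {V W V' : ℕ} {l : Lab κ} {η : κ} (hl : Lb L p V W l) (hη : lb η < l)
    (hV' : C.B V' ⊆ C.B V) (ho : η ∈ Occ L p q) :
    ∃ W', C.B W' ⊆ C.B W ∧ ∃ m, Lb L p W' V' m ∧ lb η ≤ m := by
  obtain ⟨n, hn⟩ := hl.at h.anti
  obtain ⟨A, B, hAB⟩ := ho
  have : ∃ n', ∀ m ≥ n', L.lab (p m) A B = some (lb η) ∨ L.lab (q m) A B = some (lb η) := by
    rcases hAB with hAB | hAB
    · obtain ⟨n', hn'⟩ := hAB.at h.anti
      exact ⟨n', fun m hm => Or.inl (hn' m hm)⟩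
    · obtain ⟨n', hn'⟩ := hAB.at h.anti'
      exact ⟨n', fun m hm => Or.inr (hn' m hm)⟩
  obtain ⟨n', hn'⟩ := this
  obtain ⟨k, hk, hk'⟩ := h.done (.inr (.inl (V, W, V', A, B))) (max n n')
  obtain ⟨W', h1, m, h2, h3⟩ := hk' l η (hn k ((le_max_left _ _).trans hk)) hη hV'
    (hn' k ((le_max_right _ _).trans hk))
  exact ⟨W', h1, m, ⟨_, h2⟩, h3⟩

lemma down (h : Gd L p q) {V W : ℕ} {ξ : κ} (hl : Lb L p V W (lb ξ)) :
    ∃ V', C.B V' ⊆ C.B V ∧ ∀ W', C.B W' ⊆ C.B W → ∀ m, Lb L p W' V' m → m < lb ξ := by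
  obtain ⟨n, hn⟩ := hl.at h.anti
  obtain ⟨k, hk, hk'⟩ := h.done (.inr (.inr (.inl (V, W)))) n
  obtain ⟨V', h1, h2⟩ := hk' ξ (hn k hk)
  refine ⟨V', h1, fun W' hW' m hm => ?_⟩
  obtain ⟨N, hN⟩ := hm.at h.anti
  exact h2 (p (max N (k + 1))) (h.anti (le_max_right _ _)) W' hW' m (hN _ (le_max_left _ _))

lemma bot (h : Gd L p q) {V W : ℕ} (hl : Lb L p V W ⊥) :
    ∃ n k, C.Forces (L.stem (p n)) V k ∧ C.Neg L.toStem (p n) W k := by
  obtain ⟨n, hn⟩ := hl.at h.anti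
  obtain ⟨k, hk, hk'⟩ := h.done (.inr (.inr (.inr (V, W)))) n
  obtain ⟨k', h1⟩ := hk' (hn k hk)
  exact ⟨k + 1, k', h1⟩

end Gd

/-- first components of generic pairs -/
structure G1 (C : Ctx G Y) (L : LP C κ P) (p q : ℕ → P) (z : ℕ → ℕ) : Prop where
  gd : Gd L p q
  unb : ∀ m, ∃ n, m ≤ (L.stem (p n)).length
  pre : ∀ n, Pre (L.stem (p n)) z
  dec0 : ∀ V k, ∃ n, C.Forces (L.stem (p n)) V k ∨ C.Neg L.toStem (p n) V k

namespace G1

variable {L : LP C κ P} {p q : ℕ → P} {z : ℕ → ℕ}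

lemma not_hit_of_neg [ContinuousConstSMul G Y] (h : G1 C L p q z) {n V k : ℕ}
    (hn : C.Neg L.toStem (p n) V k) : ¬ C.Hit (C.f z) V k := by
  intro hh
  obtain ⟨m, hm⟩ := Ctx.hit_forces (S := L.toStem) h.unb h.pre hh
  have h1 : p (max n m) ≤ p n := h.gd.anti (le_max_left _ _)
  have h2 : p (max n m) ≤ p m := h.gd.anti (le_max_right _ _)
  exact hn (p (max n m)) h1 (hm.mono_stem (L.stem_mono h2))

lemma neg_of_not_hit (h : G1 C L p q z) {V k : ℕ} (hh : ¬ C.Hit (C.f z) V k) :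
    ∃ n, C.Neg L.toStem (p n) V k := by
  obtain ⟨n, hn | hn⟩ := h.dec0 V k
  · exact absurd (hn z (h.pre n)) hh
  · exact ⟨n, hn⟩

lemma not_incl_of_bot [ContinuousConstSMul G Y] (h : G1 C L p q z) {V W : ℕ}
    (hl : Lb L p V W ⊥) : ¬ ∀ k, C.Hit (C.f z) V k → C.Hit (C.f z) W k := by
  obtain ⟨n, k, h1, h2⟩ := h.gd.bot hl
  exact fun hc => h.not_hit_of_neg h2 (hc k (h1 z (h.pre n)))

lemma incl_of_ne_bot [ContinuousConstSMul G Y] (h : G1 C L p q z) {V W : ℕ} {l : Lab κ}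
    (hl : Lb L p V W l) (hne : l ≠ ⊥) (k : ℕ) (hk : C.Hit (C.f z) V k) :
    C.Hit (C.f z) W k := by
  by_contra hcon
  obtain ⟨n1, h1⟩ := hl.at h.gd.anti
  obtain ⟨n2, h2⟩ := Ctx.hit_forces (S := L.toStem) h.unb h.pre hk
  obtain ⟨n3, h3⟩ := h.neg_of_not_hit hcon
  set N := max n1 (max n2 n3)
  have g2 : p N ≤ p n2 := h.gd.anti ((le_max_left _ _).trans (le_max_right _ _))
  have g3 : p N ≤ p n3 := h.gd.anti ((le_max_right _ _).trans (le_max_right _ _))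
  exact L.nbot (p N) V W l k (h1 N (le_max_left _ _)) hne (h3.mono_le g3)
    (h2.mono_stem (L.stem_mono g2))

variable [WellFoundedLT κ]

/-- (a) -/
lemma le_rk [ContinuousConstSMul G Y] (h : G1 C L p q z) (ξ : κ) :
    ∀ {V W : ℕ} {l : Lab κ}, Lb L p V W l → lb ξ ≤ l →
      C.Le (rk (Occ L p q) ξ) (C.f z) V (C.f z) W := by
  induction ξ using WellFoundedLT.induction with
  | _ ξ ih =>
    intro V W l hl hξ
    have hne : l ≠ ⊥ := by
      rintro rfl
      exact absurd hξ (by simp [lb])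
    rw [Ctx.le_iff]
    refine ⟨h.incl_of_ne_bot hl hne, fun β hβ V' hV' => ?_⟩
    obtain ⟨η, h1, h2, h3⟩ := lt_rk _ hβ
    have h4 : (lb η : Lab κ) < lb ξ := by
      unfold lb
      exact WithBot.coe_lt_coe.2 (WithTop.coe_lt_coe.2 h2)
    obtain ⟨W', hW', m, hm, hm'⟩ := h.gd.up hl (h4.trans_le hξ) hV' h1
    exact ⟨W', hW', (ih η h2 hm hm').level h3⟩

/-- (b) -/
lemma le_rk_succ [ContinuousConstSMul G Y] (h : G1 C L p q z) (ξ : κ) (ho : ξ ∈ Occ L p q)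
    {V W : ℕ} {l : Lab κ} (hl : Lb L p V W l) (hξ : lb ξ < l) :
    C.Le (rk (Occ L p q) ξ + 1) (C.f z) V (C.f z) W := by
  have hne : l ≠ ⊥ := by
    rintro rfl
    exact absurd hξ (by simp [lb])
  rw [Ctx.le_iff]
  refine ⟨h.incl_of_ne_bot hl hne, fun β hβ V' hV' => ?_⟩
  obtain ⟨W', hW', m, hm, hm'⟩ := h.gd.up hl hξ hV' ho
  rw [← Order.succ_eq_add_one, Order.lt_succ_iff] at hβ
  exact ⟨W', hW', (h.le_rk ξ hm hm').level hβ⟩

/-- (c) -/
lemma not_le_rk [ContinuousConstSMul G Y] (h : G1 C L p q z) (ξ : κ) :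
    ∀ {V W : ℕ} {l : Lab κ}, Lb L p V W l → l ≤ lb ξ →
      ¬ C.Le (rk (Occ L p q) ξ + 1) (C.f z) V (C.f z) W := by
  induction ξ using WellFoundedLT.induction with
  | _ ξ ih =>
    intro V W l hl hξ hle
    induction l using WithBot.recBotCoe with
    | bot => exact h.not_incl_of_bot hl hle.hit
    | coe l =>
      induction l using WithTop.recTopCoe with
      | top => exact absurd hξ (by simp [lb])
      | coe ξ' =>
        have h1 : ξ' ≤ ξ := by
          unfold lb at hξ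
          exact WithTop.coe_le_coe.1 (WithBot.coe_le_coe.1 hξ)
        have ho : ξ' ∈ Occ L p q := ⟨V, W, Or.inl hl⟩
        obtain ⟨V', hV', hr⟩ := h.gd.down (ξ := ξ') hl
        have hr1 := rk_le (Occ L p q) ho h1
        obtain ⟨W', hW', hle'⟩ := hle.step (β := rk (Occ L p q) ξ') (by
          rw [← Order.succ_eq_add_one, Order.lt_succ_iff]
          exact hr1) hV'
        obtain ⟨m, hm⟩ := h.gd.dec W' V'
        have hlt := hr W' hW' m hm
        induction m using WithBot.recBotCoe with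
        | bot => exact h.not_incl_of_bot hm hle'.hit
        | coe m =>
          induction m using WithTop.recTopCoe with
          | top => exact absurd hlt (by simp [lb])
          | coe η =>
            have h2 : η < ξ' := by
              unfold lb at hlt
              exact WithTop.coe_lt_coe.1 (WithBot.coe_lt_coe.1 hlt)
            exact ih η (h2.trans_le h1) hm le_rfl
              (hle'.level (rk_lt (Occ L p q) ⟨W', V', Or.inl hm⟩ h2))

end G1

/-- R4: labels are respected by forced relations -/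
theorem R4 : R4Stmt.{u, v} := by
  intro G Y _ _ _ _ _ _ _ C κ _ _ P _ L a b V Z V1 Z1 l m hR hR1 hl hm
  by_contra hcon
  rw [not_le] at hcon
  obtain ⟨p, q, z1, z2, h0, h0', hG, hg1, hg2⟩ := exists_gd L a b
  have H1 : G1 C L p q z1 := ⟨hg1, hG.unb1, hG.pre1, hG.dec1⟩
  have H2 : G1 C L q p z2 := ⟨hg2, hG.unb2, hG.pre2, hG.dec2⟩
  have hl' : Lb L p V1 V l := ⟨0, by rw [h0]; exact hl⟩
  have hm' : Lb L q Z1 Z m := ⟨0, by rw [h0']; exact hm⟩
  have e1 : ∀ α, C.Le α (C.f z1) V (C.f z2) Z := fun α =>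
    hG.le α 0 V Z (by rw [h0, h0']; exact hR)
  have e2 : ∀ α, C.Le α (C.f z2) Z1 (C.f z1) V1 := fun α =>
    hG.symm.le α 0 Z1 V1 (by rw [h0, h0']; exact hR1)
  have hne : l ≠ ⊥ := by
    rintro rfl
    exact absurd hcon (by simp)
  induction m using WithBot.recBotCoe with
  | bot =>
    apply H2.not_incl_of_bot hm'
    intro k hk
    exact (e1 0).hit k (H1.incl_of_ne_bot hl' hne k ((e2 0).hit k hk))
  | coe m =>
    induction m using WithTop.recTopCoe with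
    | top =>
      exact absurd hcon (not_lt.2 (by
        induction l using WithBot.recBotCoe with
        | bot => exact bot_le
        | coe l => exact WithBot.coe_le_coe.2 le_top))
    | coe μ =>
      have ho : μ ∈ Occ L p q := ⟨Z1, Z, Or.inr hm'⟩
      have h1 := H1.le_rk_succ μ ho hl' hcon
      have h2 := H2.not_le_rk μ hm' le_rfl
      rw [Occ_comm L q p] at h2
      exact h2 (((e2 _).trans h1).trans (e1 _))

end Pool.Agent.H48.HV
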