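import Pool.Agent.H71.HV.Targets2

/-!
HV module RK: stability is monotone in the level; robust data.
-/

set_option autoImplicit false

open Set Topology TopologicalSpace Filter

namespace Pool.Agent.H48.HV

open Pool.Agent.H71.HV

universe u v

variable {G : Type u} {Y : Type v} [Group G] [MetricSpace G] [TopologicalSpace Y] [MulAction G Y]

lemma stb_up (C : Ctx G Y) (x : Y) (β : Ordinal.{0}) (hS : C.Stb β x) :
    ∀ γ : Ordinal.{0}, β ≤ γ → ∀ i j (r s : ℚ), 0 < r → 0 < s →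
      (∀ e : ℚ, 0 < e → C.Le β x (C.bt i r) x (C.bt j (s + e))) →
      ∀ e : ℚ, 0 < e → C.Le γ x (C.bt i r) x (C.bt j (s + e)) := by
  intro γ
  induction γ using WellFoundedLT.induction with
  | _ γ ih =>
    intro hβγ i j r s hr hs h e he
    rw [Ctx.le_iff]
    refine ⟨(h e he).hit, fun δ hδ V' hV' => ?_⟩
    rcases lt_or_ge δ β with hδβ | hδβ
    · exact (h e he).step hδβ hV'
    · obtain ⟨g, hg⟩ := C.nonempty_B V'
      obtain ⟨i', R, hR, -, hsub⟩ := C.exists_ball (C.isOpen_B V') hg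
      have hR2 : (0 : ℚ) < R / 2 := by positivity
      have hsub2 : C.B (C.bt i' (R / 2)) ⊆ C.B V' := by
        refine Subset.trans ?_ hsub
        rw [C.B_bt _ _ hR2, C.B_bt _ _ hR]
        apply Metric.ball_subset_ball
        exact_mod_cast (by linarith : R / 2 ≤ R)
      obtain ⟨W1, hW1, hle⟩ := (hS i j r s hr hs h e he).step
        (lt_add_of_pos_right β zero_lt_one) (hsub2.trans hV')
      obtain ⟨w, hw⟩ := C.nonempty_B W1
      obtain ⟨j', s', hs', -, hsub'⟩ := C.exists_ball (C.isOpen_B W1) hw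
      refine ⟨C.bt j' s', hsub'.trans hW1, ?_⟩
      have key := ih δ hδ hδβ j' i' s' (R / 2) hs' hR2 (fun e' he' => ?_) (R / 2) hR2
      · have hRR : R / 2 + R / 2 = R := by ring
        rw [hRR] at key
        exact key.mono Subset.rfl hsub
      · refine hle.mono hsub' ?_
        rw [C.B_bt _ _ hR2, C.B_bt _ _ (by positivity)]
        apply Metric.ball_subset_ball
        exact_mod_cast (by linarith : R / 2 ≤ R / 2 + e')

/-- RK1 -/
theorem RK1 : StbMonoStmt.{u, v} := by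
  intro G Y _ _ _ _ C x β γ hβγ hS i j r s hr hs h e he
  exact stb_up C x β hS (γ + 1) (hβγ.trans (le_add_of_nonneg_right zero_le_one)) i j r s hr hs
    (fun e he => (h e he).level hβγ) e he

/-- RK2 -/
theorem RK2 : RobStmt.{u, v} := by
  intro G Y _ _ _ _ C x β hS
  unfold Ctx.Stb at hS
  push Not at hS
  obtain ⟨i, j, r, s, hr, hs, h, e, he, hn⟩ := hS
  rw [Ctx.le_iff] at hn
  have hn' : ∃ δ < β + 1, ∃ V', C.B V' ⊆ C.B (C.bt i r) ∧
      ∀ W', C.B W' ⊆ C.B (C.bt j (s + e)) → ¬ C.Le δ x W' x V' := by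
    by_contra hcon
    push Not at hcon
    exact hn ⟨(h e he).hit, hcon⟩
  obtain ⟨δ, hδ, V', hV', hW⟩ := hn'
  obtain ⟨g, hg⟩ := C.nonempty_B V'
  have hgr : dist g (C.cen i) < (r : ℝ) := by
    have := hV' hg
    rwa [C.B_bt _ _ hr] at this
  obtain ⟨r1, h1, h2⟩ := exists_rat_btwn hgr
  have hr1 : 0 < r1 := by
    have : (0 : ℝ) < r1 := lt_of_le_of_lt dist_nonneg h1
    exact_mod_cast this
  obtain ⟨V'', hg'', hV''⟩ := C.exists_token ((C.isOpen_B V').inter
    (Metric.isOpen_ball (x := C.cen i) (ε := (r1 : ℝ)))) ⟨hg, h1⟩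
  refine ⟨⟨i, j, r, r1, s, e⟩, ⟨hr1, by exact_mod_cast h2, hs, he⟩, h, fun hle => ?_⟩
  obtain ⟨W', hW', hle'⟩ := hle.step hδ (V' := V'') (by
    dsimp only
    rw [C.B_bt _ _ hr1]
    exact hV''.trans inter_subset_right)
  exact hW W' hW' (hle'.mono Subset.rfl (hV''.trans inter_subset_left))

end Pool.Agent.H48.HV
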