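import Pool.Agent.H71.HV.Targets2

/-!
HV module SI: stability is invariant.
-/

set_option autoImplicit false

open Set Topology TopologicalSpace Filter

namespace Pool.Agent.H48.HV

open Pool.Agent.H71.HV

universe u v

variable {G : Type u} {Y : Type v} [Group G] [MetricSpace G] [TopologicalSpace Y] [MulAction G Y]

/-- the relations `≤_α` for open sets instead of tokens -/
def LeS (C : Ctx G Y) (α : Ordinal.{0}) (x : Y) (V : Set G) (y : Y) (W : Set G) : Prop :=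
  (∀ k, (∃ g ∈ V, g • x ∈ C.U k) → ∃ g ∈ W, g • y ∈ C.U k) ∧
    ∀ β, ∀ _ : β < α, ∀ V' : Set G, IsOpen V' → V'.Nonempty → V' ⊆ V →
      ∃ W' : Set G, IsOpen W' ∧ W'.Nonempty ∧ W' ⊆ W ∧ LeS C β y W' x V'
termination_by α

lemma leS_iff {C : Ctx G Y} (α : Ordinal.{0}) (x : Y) (V : Set G) (y : Y) (W : Set G) :
    LeS C α x V y W ↔ (∀ k, (∃ g ∈ V, g • x ∈ C.U k) → ∃ g ∈ W, g • y ∈ C.U k) ∧
      ∀ β < α, ∀ V' : Set G, IsOpen V' → V'.Nonempty → V' ⊆ V →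
        ∃ W' : Set G, IsOpen W' ∧ W'.Nonempty ∧ W' ⊆ W ∧ LeS C β y W' x V' := by
  rw [LeS]

lemma LeS.mono {C : Ctx G Y} {α : Ordinal.{0}} {x : Y} {V V' : Set G} {y : Y} {W W' : Set G}
    (h : LeS C α x V y W) (hV : V' ⊆ V) (hW : W ⊆ W') : LeS C α x V' y W' := by
  rw [leS_iff] at h ⊢
  refine ⟨?_, fun β hβ V'' ho hne hV'' => ?_⟩
  · rintro k ⟨g, hg, hg'⟩
    obtain ⟨w, hw, hw'⟩ := h.1 k ⟨g, hV hg, hg'⟩
    exact ⟨w, hW hw, hw'⟩
  · obtain ⟨W'', h1, h2, h3, h4⟩ := h.2 β hβ V'' ho hne (hV''.trans hV)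
    exact ⟨W'', h1, h2, h3.trans hW, h4⟩

lemma le_iff_leS (C : Ctx G Y) (α : Ordinal.{0}) (x : Y) (V : ℕ) (y : Y) (W : ℕ) :
    C.Le α x V y W ↔ LeS C α x (C.B V) y (C.B W) := by
  induction α using WellFoundedLT.induction generalizing x V y W with
  | _ α ih =>
    rw [Ctx.le_iff, leS_iff]
    refine and_congr Iff.rfl ⟨fun h β hβ V' ho hne hV' => ?_, fun h β hβ V' hV' => ?_⟩
    · obtain ⟨v, hv⟩ := hne
      obtain ⟨n, -, hn⟩ := C.exists_token ho hv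
      obtain ⟨W', h1, h2⟩ := h β hβ n (hn.trans hV')
      exact ⟨C.B W', C.isOpen_B _, C.nonempty_B _, h1, ((ih β hβ _ _ _ _).1 h2).mono
        Subset.rfl hn⟩
    · obtain ⟨W', ho, ⟨w, hw⟩, h1, h2⟩ := h β hβ (C.B V') (C.isOpen_B _) (C.nonempty_B _) hV'
      obtain ⟨n, -, hn⟩ := C.exists_token ho hw
      exact ⟨n, hn.trans h1, (ih β hβ _ _ _ _).2 (h2.mono hn Subset.rfl)⟩

/-- right translate of a set -/
def Rt (g : G) (V : Set G) : Set G := {v | v * g⁻¹ ∈ V}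

lemma Rt_Rt (g h : G) (V : Set G) : Rt g (Rt h V) = Rt (h * g) V := by
  ext v
  simp [Rt, mul_assoc]

lemma Rt_one (V : Set G) : Rt 1 V = V := by
  ext v
  simp [Rt]

lemma Rt_mono (g : G) {V W : Set G} (h : V ⊆ W) : Rt g V ⊆ Rt g W := fun _ hv => h hv

lemma isOpen_Rt [ContinuousMul G] (g : G) {V : Set G} (h : IsOpen V) : IsOpen (Rt g V) :=
  h.preimage (continuous_mul_const g⁻¹)

lemma nonempty_Rt (g : G) {V : Set G} (h : V.Nonempty) : (Rt g V).Nonempty := by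
  obtain ⟨v, hv⟩ := h
  exact ⟨v * g, by simpa [Rt] using hv⟩

lemma leS_smul [ContinuousMul G] (C : Ctx G Y) (α : Ordinal.{0}) (x : Y) (V : Set G) (y : Y)
    (W : Set G) (g h : G) (hl : LeS C α (g • x) V (h • y) W) :
    LeS C α x (Rt g V) y (Rt h W) := by
  induction α using WellFoundedLT.induction generalizing x V y W g h with
  | _ α ih =>
    rw [leS_iff] at hl ⊢
    refine ⟨?_, fun β hβ V' ho hne hV' => ?_⟩
    · rintro k ⟨v, hv, hv'⟩
      obtain ⟨w, hw, hw'⟩ := hl.1 k ⟨v * g⁻¹, hv, by rwa [smul_smul, inv_mul_cancel_right]⟩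
      exact ⟨w * h, by simpa [Rt] using hw, by rwa [smul_smul] at hw'⟩
    · have hsub : Rt g⁻¹ V' ⊆ V := by
        have := Rt_mono g⁻¹ hV'
        rwa [Rt_Rt, mul_inv_cancel, Rt_one] at this
      obtain ⟨W', h1, h2, h3, h4⟩ := hl.2 β hβ (Rt g⁻¹ V') (isOpen_Rt _ ho) (nonempty_Rt _ hne)
        hsub
      have := ih β hβ _ _ _ _ _ _ h4
      rw [Rt_Rt, inv_mul_cancel, Rt_one] at this
      exact ⟨Rt h W', isOpen_Rt _ h1, nonempty_Rt _ h2, Rt_mono _ h3, this⟩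

lemma leS_smul_iff [ContinuousMul G] (C : Ctx G Y) (α : Ordinal.{0}) (x : Y) (V : Set G) (y : Y)
    (W : Set G) (g h : G) :
    LeS C α (g • x) V (h • y) W ↔ LeS C α x (Rt g V) y (Rt h W) := by
  refine ⟨leS_smul C α x V y W g h, fun hl => ?_⟩
  have := leS_smul C α (g • x) (Rt g V) (h • y) (Rt h W) g⁻¹ h⁻¹ (by simpa using hl)
  rwa [Rt_Rt, Rt_Rt, mul_inv_cancel, mul_inv_cancel, Rt_one, Rt_one] at this

lemma Rt_ball (hI : RInv G) (g c : G) (r : ℝ) :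
    Rt g (Metric.ball c r) = Metric.ball (c * g) r := by
  ext v
  simp only [Rt, mem_setOf_eq, Metric.mem_ball]
  rw [← hI (v * g⁻¹) c g, inv_mul_cancel_right]

/-- SI: stability is invariant -/
theorem SI : StbInvStmt.{u, v} := by
  intro G Y _ _ _ _ _ hI C x g β hS i j r s hr hs h e he
  have h' : ∀ e : ℚ, 0 < e → LeS C β x (Metric.ball (C.cen i * g) r) x
      (Metric.ball (C.cen j * g) ((s + e : ℚ) : ℝ)) := by
    intro e he
    have h1 := (le_iff_leS C _ _ _ _ _).1 (h e he)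
    rw [leS_smul_iff, C.B_bt _ _ hr, C.B_bt _ _ (by positivity), Rt_ball hI, Rt_ball hI] at h1
    exact h1
  rw [le_iff_leS, leS_smul_iff, C.B_bt _ _ hr, C.B_bt _ _ (by positivity), Rt_ball hI,
    Rt_ball hI, leS_iff]
  refine ⟨((leS_iff _ _ _ _ _).1 (h' e he)).1, fun δ hδ V' ho hne hV' => ?_⟩
  obtain ⟨v, hv⟩ := hne
  obtain ⟨i1, r1, hr1, -, hV1⟩ := C.exists_ball ho hv
  obtain ⟨j1, hj1⟩ := C.dense_cen.exists_dist_lt (C.cen j * g)
    (show (0 : ℝ) < (e : ℝ) / 4 by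
      have : (0 : ℝ) < e := by exact_mod_cast he
      positivity)
  have key := hS i1 j1 r1 (s + e / 2) hr1 (by positivity) (fun e1 he1 => ?_) (e / 4)
    (by positivity)
  · rw [le_iff_leS, leS_iff] at key
    obtain ⟨W', h1, h2, h3, h4⟩ := key.2 δ hδ (C.B (C.bt i1 r1)) (C.isOpen_B _) (C.nonempty_B _)
      Subset.rfl
    refine ⟨W', h1, h2, h3.trans ?_, h4.mono Subset.rfl hV1⟩
    rw [C.B_bt _ _ (by positivity)]
    apply Metric.ball_subset_ball'
    rw [dist_comm]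
    push_cast
    linarith
  · rw [le_iff_leS]
    refine (h' (e / 4) (by positivity)).mono (hV1.trans hV') ?_
    rw [C.B_bt _ _ (by positivity)]
    apply Metric.ball_subset_ball'
    have : (0 : ℝ) < e1 := by exact_mod_cast he1
    push_cast
    linarith

end Pool.Agent.H48.HV
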